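import Mathlib

set_option autoImplicit false
open MeasureTheory

namespace Pool.Agent.InvRado

/-- General back and forth on `ℕ`. -/
theorem backforth (P : Finset (ℕ × ℕ) → Prop)
    (hinj : ∀ p, P p → ∀ x ∈ p, ∀ y ∈ p, (x.1 = y.1 ↔ x.2 = y.2))
    (hf : ∀ p, P p → ∀ a : ℕ, ∃ q, P q ∧ p ⊆ q ∧ ∃ b, (a, b) ∈ q)
    (hb : ∀ p, P p → ∀ b : ℕ, ∃ q, P q ∧ p ⊆ q ∧ ∃ a, (a, b) ∈ q)
    (p0 : Finset (ℕ × ℕ)) (h0 : P p0) :
    ∃ e : ℕ ≃ ℕ, (∀ x ∈ p0, e x.1 = x.2) ∧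
      ∀ a a', ∃ q, P q ∧ (a, e a) ∈ q ∧ (a', e a') ∈ q := by
  classical
  have step : ∀ p : {p // P p}, ∀ n : ℕ, ∃ q : {p // P p},
      p.1 ⊆ q.1 ∧ (∃ b, (n, b) ∈ q.1) ∧ (∃ a, (a, n) ∈ q.1) := by
    intro p n
    obtain ⟨q, hq, hpq, b, hb1⟩ := hf p.1 p.2 n
    obtain ⟨r, hr, hqr, a, ha1⟩ := hb q hq n
    exact ⟨⟨r, hr⟩, hpq.trans hqr, ⟨b, hqr hb1⟩, ⟨a, ha1⟩⟩
  choose F hF1 hF2 hF3 using step
  let s : ℕ → {p // P p} := fun n => Nat.rec ⟨p0, h0⟩ (fun n p => F p n) n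
  have hs1 : ∀ n, s (n+1) = F (s n) n := fun n => rfl
  have hmono : Monotone (fun n => (s n).1) := by
    apply monotone_nat_of_le_succ
    intro n
    show (s n).1 ≤ (s (n+1)).1
    rw [hs1]
    exact hF1 _ _
  have hdom : ∀ n, ∃ b, (n, b) ∈ (s (n+1)).1 := fun n => by rw [hs1]; exact hF2 _ _
  have hran : ∀ n, ∃ a, (a, n) ∈ (s (n+1)).1 := fun n => by rw [hs1]; exact hF3 _ _
  choose f hf' using hdom
  choose g hg' using hran
  have key : ∀ m n x y, x ∈ (s m).1 → y ∈ (s n).1 → (x.1 = y.1 ↔ x.2 = y.2) := by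
    intro m n x y hx hy
    have h1 := hmono (le_max_left m n) hx
    have h2 := hmono (le_max_right m n) hy
    exact hinj _ (s (max m n)).2 _ h1 _ h2
  refine ⟨⟨f, g, ?_, ?_⟩, ?_, ?_⟩
  · intro a
    exact (key (f a + 1) (a + 1) (g (f a), f a) (a, f a) (hg' (f a)) (hf' a)).2 rfl
  · intro b
    exact (key (g b + 1) (b + 1) (g b, f (g b)) (g b, b) (hf' (g b)) (hg' b)).1 rfl
  · intro x hx
    have : x ∈ (s 0).1 := hx
    exact (key (x.1 + 1) 0 (x.1, f x.1) x (hf' x.1) this).1 rfl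
  · intro a a'
    refine ⟨(s (max (a+1) (a'+1))).1, (s _).2, ?_, ?_⟩
    · exact hmono (le_max_left _ _) (hf' a)
    · exact hmono (le_max_right _ _) (hf' a')

/-- A graph on `ℕ` with sorts, generic subject to a constraint on sorts. -/
structure Gen (C : ℕ → ℕ → Prop) (Q : ℕ → Prop) (s : ℕ → ℕ) (B : SimpleGraph ℕ) : Prop where
  adjC : ∀ x y, B.Adj x y → C (s x) (s y)
  srtQ : ∀ x, Q (s x)
  ext : ∀ (U V : Finset ℕ), Disjoint U V → ∀ i, Q i → (∀ u ∈ U, C i (s u)) →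
    ∃ z, z ∉ U ∧ z ∉ V ∧ s z = i ∧ (∀ u ∈ U, B.Adj z u) ∧ (∀ v ∈ V, ¬ B.Adj z v)

def PIso (s s' : ℕ → ℕ) (A B : SimpleGraph ℕ) (p : Finset (ℕ × ℕ)) : Prop :=
  (∀ x ∈ p, s x.1 = s' x.2) ∧
  ∀ x ∈ p, ∀ y ∈ p, (x.1 = y.1 ↔ x.2 = y.2) ∧ (A.Adj x.1 y.1 ↔ B.Adj x.2 y.2)

lemma PIso.swap {s s' : ℕ → ℕ} {A B : SimpleGraph ℕ} {p : Finset (ℕ × ℕ)}
    (h : PIso s s' A B p) : PIso s' s B A (p.image Prod.swap) := by
  classical
  refine ⟨?_, ?_⟩
  · intro x hx
    obtain ⟨y, hy, rfl⟩ := Finset.mem_image.1 hx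
    exact (h.1 y hy).symm
  · intro x hx y hy
    obtain ⟨x', hx', rfl⟩ := Finset.mem_image.1 hx
    obtain ⟨y', hy', rfl⟩ := Finset.mem_image.1 hy
    exact ⟨(h.2 x' hx' y' hy').1.symm, (h.2 x' hx' y' hy').2.symm⟩

lemma forth {C : ℕ → ℕ → Prop} {Q : ℕ → Prop} {s s' : ℕ → ℕ} {A B : SimpleGraph ℕ}
    (hA : Gen C Q s A) (hB : Gen C Q s' B) (p : Finset (ℕ × ℕ)) (hp : PIso s s' A B p) (a : ℕ) :
    ∃ q, PIso s s' A B q ∧ p ⊆ q ∧ ∃ b, (a, b) ∈ q := by
  classical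
  by_cases ha : ∃ b, (a, b) ∈ p
  · exact ⟨p, hp, subset_rfl, ha⟩
  · push Not at ha
    obtain ⟨z, hzU, hzV, hzs, hz1, hz2⟩ := hB.ext
      ((p.filter (fun x => A.Adj a x.1)).image Prod.snd)
      ((p.filter (fun x => ¬ A.Adj a x.1)).image Prod.snd)
      (by
        rw [Finset.disjoint_left]
        intro b hb hb'
        simp only [Finset.mem_image, Finset.mem_filter] at hb hb'
        obtain ⟨x, ⟨hx, hx1⟩, hx2⟩ := hb
        obtain ⟨y, ⟨hy, hy1⟩, hy2⟩ := hb'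
        have := (hp.2 x hx y hy).1.2 (hx2.trans hy2.symm)
        rw [this] at hx1
        exact hy1 hx1)
      (s a) (hA.srtQ a)
      (by
        intro b hb
        simp only [Finset.mem_image, Finset.mem_filter] at hb
        obtain ⟨x, ⟨hx, hx1⟩, hx2⟩ := hb
        rw [← hx2, ← hp.1 x hx]
        exact hA.adjC _ _ hx1)
    have hz3 : ∀ x ∈ p, x.2 ≠ z := by
      intro x hx hxz
      by_cases hax : A.Adj a x.1
      · apply hzU
        simp only [Finset.mem_image, Finset.mem_filter]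
        exact ⟨x, ⟨hx, hax⟩, hxz⟩
      · apply hzV
        simp only [Finset.mem_image, Finset.mem_filter]
        exact ⟨x, ⟨hx, hax⟩, hxz⟩
    have hz4 : ∀ x ∈ p, x.1 ≠ a := by
      intro x hx hxa
      apply ha x.2
      rw [← hxa]
      exact hx
    have hz5 : ∀ x ∈ p, (A.Adj a x.1 ↔ B.Adj z x.2) := by
      intro x hx
      constructor
      · intro h
        apply hz1
        simp only [Finset.mem_image, Finset.mem_filter]
        exact ⟨x, ⟨hx, h⟩, rfl⟩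
      · intro h
        by_contra hcon
        refine hz2 x.2 ?_ h
        simp only [Finset.mem_image, Finset.mem_filter]
        exact ⟨x, ⟨hx, hcon⟩, rfl⟩
    refine ⟨insert (a, z) p, ⟨?_, ?_⟩, Finset.subset_insert _ _, z, Finset.mem_insert_self _ _⟩
    · intro x hx
      rcases Finset.mem_insert.1 hx with rfl | hx
      · exact hzs.symm
      · exact hp.1 x hx
    · intro x hx y hy
      rcases Finset.mem_insert.1 hx with rfl | hx
      · rcases Finset.mem_insert.1 hy with rfl | hy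
        · simp
        · refine ⟨⟨fun h => absurd h.symm (hz4 y hy), fun h => absurd h.symm (hz3 y hy)⟩, hz5 y hy⟩
      · rcases Finset.mem_insert.1 hy with rfl | hy
        · refine ⟨⟨fun h => absurd h (hz4 x hx), fun h => absurd h (hz3 x hx)⟩, ?_⟩
          rw [A.adj_comm, B.adj_comm]
          exact hz5 x hx
        · exact hp.2 x hx y hy

lemma back {C : ℕ → ℕ → Prop} {Q : ℕ → Prop} {s s' : ℕ → ℕ} {A B : SimpleGraph ℕ}
    (hA : Gen C Q s A) (hB : Gen C Q s' B) (p : Finset (ℕ × ℕ)) (hp : PIso s s' A B p) (b : ℕ) :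
    ∃ q, PIso s s' A B q ∧ p ⊆ q ∧ ∃ a, (a, b) ∈ q := by
  classical
  obtain ⟨q, hq, hpq, a, ha⟩ := forth hB hA (p.image Prod.swap) hp.swap b
  refine ⟨q.image Prod.swap, hq.swap, ?_, a, ?_⟩
  · intro x hx
    have : x.swap ∈ q := hpq (Finset.mem_image_of_mem _ hx)
    have h2 := Finset.mem_image_of_mem Prod.swap this
    simpa using h2
  · have h2 := Finset.mem_image_of_mem Prod.swap ha
    simpa using h2

theorem gen_iso {C : ℕ → ℕ → Prop} {Q : ℕ → Prop} {s s' : ℕ → ℕ} {A B : SimpleGraph ℕ}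
    (hA : Gen C Q s A) (hB : Gen C Q s' B) (p : Finset (ℕ × ℕ)) (hp : PIso s s' A B p) :
    ∃ e : ℕ ≃ ℕ, (∀ x ∈ p, e x.1 = x.2) ∧ (∀ x, s' (e x) = s x) ∧
      (∀ x y, B.Adj (e x) (e y) ↔ A.Adj x y) := by
  obtain ⟨e, he1, he2⟩ := backforth (PIso s s' A B) (fun p hp x hx y hy => (hp.2 x hx y hy).1)
    (forth hA hB) (back hA hB) p hp
  refine ⟨e, he1, ?_, ?_⟩
  · intro x
    obtain ⟨q, hq, h1, _⟩ := he2 x x
    exact (hq.1 _ h1).symm
  · intro x y
    obtain ⟨q, hq, h1, h2⟩ := he2 x y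
    exact (hq.2 _ h1 _ h2).2.symm

/-- The Rado graph. -/
def R : SimpleGraph ℕ := SimpleGraph.fromRel (fun i j : ℕ => Nat.testBit j i = true)

/-- The sort. -/
def srt (z : ℕ) : ℕ := (Nat.unpair (Nat.log 2 z)).1

lemma exists_bits (S : Finset ℕ) : ∃ z : ℕ, ∀ i, (Nat.testBit z i = true ↔ i ∈ S) := by
  classical
  induction S using Finset.induction_on with
  | empty => exact ⟨0, by simp⟩
  | insert a S ha ih =>
    obtain ⟨z, hz⟩ := ih
    refine ⟨z ||| 2 ^ a, ?_⟩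
    intro i
    rw [Nat.testBit_or, Bool.or_eq_true, hz i, Nat.testBit_two_pow]
    simp only [decide_eq_true_eq, Finset.mem_insert]
    constructor
    · rintro (h | h)
      · exact Or.inr h
      · exact Or.inl h.symm
    · rintro (h | h)
      · exact Or.inr h.symm
      · exact Or.inl h

lemma ext (U V : Finset ℕ) (hUV : Disjoint U V) (i : ℕ) :
    ∃ z, z ∉ U ∧ z ∉ V ∧ srt z = i ∧ (∀ u ∈ U, R.Adj z u) ∧ (∀ v ∈ V, ¬ R.Adj z v) := by
  classical
  obtain ⟨m, hm⟩ : ∃ m, ∀ x ∈ U ∪ V, x < m := by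
    refine ⟨(U ∪ V).sup id + 1, fun x hx => ?_⟩
    have := Finset.le_sup (f := id) hx
    simp only [id] at this
    omega
  set n := Nat.pair i m with hn
  have hmn : m ≤ n := Nat.right_le_pair i m
  obtain ⟨z, hz⟩ := exists_bits (insert n U)
  have hzn : 2 ^ n ≤ z := by
    apply Nat.ge_two_pow_of_testBit
    rw [hz]
    exact Finset.mem_insert_self _ _
  have hzn2 : z < 2 ^ (n + 1) := by
    apply Nat.lt_pow_two_of_testBit
    intro j hj
    by_contra hcon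
    have h1 : Nat.testBit z j = true := by
      simpa using hcon
    rw [hz] at h1
    rcases Finset.mem_insert.1 h1 with h1 | h1
    · omega
    · have := hm j (Finset.mem_union_left _ h1)
      omega
  have hlog : Nat.log 2 z = n := Nat.log_eq_of_pow_le_of_lt_pow hzn hzn2
  have hlt : ∀ x ∈ U ∪ V, x < z := by
    intro x hx
    have h1 := hm x hx
    have h2 : n < 2 ^ n := Nat.lt_two_pow_self
    omega
  refine ⟨z, ?_, ?_, ?_, ?_, ?_⟩
  · intro h
    exact lt_irrefl _ (hlt z (Finset.mem_union_left _ h))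
  · intro h
    exact lt_irrefl _ (hlt z (Finset.mem_union_right _ h))
  · unfold srt
    rw [hlog, hn, Nat.unpair_pair]
  · intro u hu
    rw [R, SimpleGraph.fromRel_adj]
    refine ⟨(hlt u (Finset.mem_union_left _ hu)).ne', Or.inr ?_⟩
    rw [hz]
    exact Finset.mem_insert_of_mem hu
  · intro v hv h
    rw [R, SimpleGraph.fromRel_adj] at h
    have hvz := hlt v (Finset.mem_union_right _ hv)
    rcases h.2 with h2 | h2
    · have h3 := Nat.ge_two_pow_of_testBit h2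
      have h4 : z < 2 ^ z := Nat.lt_two_pow_self
      omega
    · rw [hz] at h2
      rcases Finset.mem_insert.1 h2 with h2 | h2
      · have := hm v (Finset.mem_union_right _ hv)
        omega
      · exact (Finset.disjoint_left.1 hUV h2 hv)

/-- The invariant graph. -/
def Gm : SimpleGraph ℕ where
  Adj x y := R.Adj x y ∧ (srt x = 0 ∨ srt y = 0)
  symm := ⟨fun _ _ h => ⟨h.1.symm, h.2.symm⟩⟩
  loopless := ⟨fun _ h => h.1.ne rfl⟩

lemma Gm_adj (x y : ℕ) : Gm.Adj x y ↔ R.Adj x y ∧ (srt x = 0 ∨ srt y = 0) := Iff.rfl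

lemma gen_R : Gen (fun _ _ => True) (fun i => i = 0) (fun _ => 0) R where
  adjC := fun _ _ _ => trivial
  srtQ := fun _ => rfl
  ext := fun U V hUV i hi _ => by
    obtain ⟨z, h1, h2, _, h4, h5⟩ := ext U V hUV 0
    exact ⟨z, h1, h2, hi.symm, h4, h5⟩

lemma gen_Gm0 : Gen (fun _ _ => True) (fun i => i = 0) (fun _ => 0) Gm where
  adjC := fun _ _ _ => trivial
  srtQ := fun _ => rfl
  ext := fun U V hUV i hi _ => by
    obtain ⟨z, h1, h2, h3, h4, h5⟩ := ext U V hUV 0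
    exact ⟨z, h1, h2, hi.symm, fun u hu => ⟨h4 u hu, Or.inl h3⟩, fun v hv h => h5 v hv h.1⟩

lemma gen_Gm : Gen (fun i j => i = 0 ∨ j = 0) (fun _ => True) srt Gm where
  adjC := fun _ _ h => h.2
  srtQ := fun _ => trivial
  ext := fun U V hUV i _ hC => by
    obtain ⟨z, h1, h2, h3, h4, h5⟩ := ext U V hUV i
    refine ⟨z, h1, h2, h3, fun u hu => ⟨h4 u hu, ?_⟩, fun v hv h => h5 v hv h.1⟩
    rw [h3]
    exact hC u hu

/-- The group. -/
def G : Subgroup (Equiv.Perm ℕ) where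
  carrier := {g | (∀ x, srt (g x) = srt x) ∧ ∀ x y, Gm.Adj (g x) (g y) ↔ Gm.Adj x y}
  mul_mem' := by
    intro a b ha hb
    refine ⟨fun x => ?_, fun x y => ?_⟩
    · rw [Equiv.Perm.mul_apply, ha.1, hb.1]
    · rw [Equiv.Perm.mul_apply, Equiv.Perm.mul_apply, ha.2, hb.2]
  one_mem' := ⟨fun _ => rfl, fun _ _ => Iff.rfl⟩
  inv_mem' := by
    intro a ha
    refine ⟨fun x => ?_, fun x y => ?_⟩
    · have h := ha.1 (a⁻¹ x)
      have h2 : a (a⁻¹ x) = x := a.apply_symm_apply x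
      rw [h2] at h
      exact h.symm
    · have h := ha.2 (a⁻¹ x) (a⁻¹ y)
      have h2 : a (a⁻¹ x) = x := a.apply_symm_apply x
      have h3 : a (a⁻¹ y) = y := a.apply_symm_apply y
      rw [h2, h3] at h
      exact h.symm

lemma mem_G (g : Equiv.Perm ℕ) :
    g ∈ G ↔ (∀ x, srt (g x) = srt x) ∧ ∀ x y, Gm.Adj (g x) (g y) ↔ Gm.Adj x y := Iff.rfl

lemma homog (x₁ x₂ y₁ y₂ : ℕ) (hx : x₁ ≠ x₂) (hy : y₁ ≠ y₂) (h1 : srt x₁ = srt y₁)
    (h2 : srt x₂ = srt y₂) (hadj : Gm.Adj x₁ x₂ ↔ Gm.Adj y₁ y₂) :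
    ∃ g ∈ G, g x₁ = y₁ ∧ g x₂ = y₂ := by
  classical
  obtain ⟨e, he1, he2, he3⟩ := gen_iso gen_Gm gen_Gm {(x₁, y₁), (x₂, y₂)} (by
    refine ⟨?_, ?_⟩
    · intro x hx
      rcases Finset.mem_insert.1 hx with rfl | hx
      · exact h1
      · rw [Finset.mem_singleton] at hx
        subst hx
        exact h2
    · intro x hx' y hy'
      have ex : x = (x₁, y₁) ∨ x = (x₂, y₂) := by simpa using hx'
      have ey : y = (x₁, y₁) ∨ y = (x₂, y₂) := by simpa using hy'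
      rcases ex with rfl | rfl <;> rcases ey with rfl | rfl
      · simp
      · simp [hx, hy, hadj]
      · simp only []
        rw [Gm.adj_comm x₂ x₁, Gm.adj_comm y₂ y₁]
        simp [hx.symm, hy.symm, hadj]
      · simp)
  exact ⟨e, ⟨he2, he3⟩, he1 (x₁, y₁) (by simp), he1 (x₂, y₂) (by simp)⟩

end Pool.Agent.InvRado
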